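import Mathlib
import Pool.Agent.X87.CSD.Isolate

/-! # MP_edeaa2_an: the top of the spectrum of normalised minima

Let `d ≥ 3`; forms are products of `d` linearly independent real linear forms in `d` variables, given
by real invertible `d × d` matrices `g`, with normalised minimum `nuBar g`. Classes are taken up to
integral changes of variables and real factors.

1. Let `δ > 0`. If there is no non-integral form (no form which is not proportional to an integral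
   form) with normalised minimum at least `δ`, then the forms with normalised minimum at least `δ`
   lie in finitely many classes.
2. If the conjecture of Cassels and Swinnerton-Dyer fails in dimension `d`, then the normalised
   minima of the non-integral forms have a maximum `θ > 0`. It is attained by a recurrent form which
   takes its minimum at a nonzero integer point. If `g` is any non-integral form with normalised
   minimum `θ`, then so are all the forms in its orbit closure, and they do not lie in countably many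
   classes.
3. The conjecture in dimension `d` is equivalent to: for every `δ > 0` the forms with normalised
   minimum equal to `δ` lie in finitely many classes; and also to: for every `δ > 0` they lie in
   countably many classes. (For `d = 2` the level `1 / 3` contains uncountably many classes.) -/

set_option autoImplicit false

open Filter Topology Matrix

namespace Pool.Agent.Results.MP_edeaa2_an.TopOfSpectrum

variable {d : ℕ}

/-- the product of the linear forms given by the rows of `g` -/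
noncomputable def F (g : Matrix (Fin d) (Fin d) ℝ) (x : Fin d → ℝ) : ℝ :=
  ∏ i : Fin d, ∑ j : Fin d, g i j * x j

/-- the infimum of `|F g|` over the nonzero integer points -/
noncomputable def nu (g : Matrix (Fin d) (Fin d) ℝ) : ℝ :=
  ⨅ x : {x : Fin d → ℤ // x ≠ 0}, |F g (fun i => (x.1 i : ℝ))|

/-- the normalised minimum -/
noncomputable def nuBar (g : Matrix (Fin d) (Fin d) ℝ) : ℝ := nu g / |g.det|

/-- the product of the linear forms is proportional to a form with integer coefficients -/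
def PropInt (h : Matrix (Fin d) (Fin d) ℝ) : Prop :=
  ∃ c : ℝ, c ≠ 0 ∧ ∀ m : Fin d →₀ ℕ, ∃ z : ℤ, MvPolynomial.coeff m
    (c • (∏ i : Fin d, ∑ j : Fin d,
      MvPolynomial.C (h i j) * MvPolynomial.X j : MvPolynomial (Fin d) ℝ)) = (z : ℝ)

/-- the forms given by `g` and `h` are equivalent up to a nonzero real factor -/
def Equivalent (g h : Matrix (Fin d) (Fin d) ℝ) : Prop :=
  ∃ (γ : Matrix (Fin d) (Fin d) ℤ) (c : ℝ), |γ.det| = 1 ∧ c ≠ 0 ∧
    ∀ x : Fin d → ℝ, F g x = c * F h ((γ.map (Int.cast : ℤ → ℝ)).mulVec x)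

/-- The closure of the set of matrices `diag(a) g γ` with `a` positive of product one and `γ`
integral of determinant `±1`. -/
def OrbitClosure (g : Matrix (Fin d) (Fin d) ℝ) : Set (Matrix (Fin d) (Fin d) ℝ) :=
  closure {h | ∃ (a : Fin d → ℝ) (γ : Matrix (Fin d) (Fin d) ℤ), (∀ i, 0 < a i) ∧ ∏ i, a i = 1 ∧
    |γ.det| = 1 ∧ h = Matrix.diagonal a * g * γ.map (Int.cast : ℤ → ℝ)}

/-- The orbit closure of `h` is minimal. -/
def Recurrent (h : Matrix (Fin d) (Fin d) ℝ) : Prop :=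
  ∀ h' ∈ OrbitClosure h, h ∈ OrbitClosure h'

/-- the conjecture of Cassels and Swinnerton-Dyer in dimension `d` -/
def Conj (d : ℕ) : Prop := ∀ g : Matrix (Fin d) (Fin d) ℝ, g.det ≠ 0 → ¬ PropInt g → nuBar g = 0

lemma closure_eq (g : Matrix (Fin d) (Fin d) ℝ) : OrbitClosure g = closure (H715R2.Orb g) := by
  unfold OrbitClosure H715R2.Orb
  congr 1
  ext h
  constructor
  · rintro ⟨a, γ, ha0, ha1, hγ, hh⟩
    exact ⟨a, γ, ha0, ha1, Int.isUnit_iff_abs_eq.2 hγ, hh⟩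
  · rintro ⟨a, γ, ha0, ha1, hγ, hh⟩
    exact ⟨a, γ, ha0, ha1, Int.isUnit_iff_abs_eq.1 hγ, hh⟩

lemma recurrent_iff (h : Matrix (Fin d) (Fin d) ℝ) :
    Recurrent h ↔ TH314.CSD.Recurrent h := by
  unfold Recurrent TH314.CSD.Recurrent
  simp only [closure_eq]

lemma nu_eq (g : Matrix (Fin d) (Fin d) ℝ) : nu g = H715R2.nuInf g := rfl

lemma nu_nonneg (g : Matrix (Fin d) (Fin d) ℝ) : 0 ≤ nu g := Real.iInf_nonneg fun _ => abs_nonneg _

lemma hasNu_nu (hd : 0 < d) (g : Matrix (Fin d) (Fin d) ℝ) : H715R2.HasNu g (nu g) :=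
  fun m hm => ciInf_le (H715R2.nuInf_bdd g) ⟨m, hm⟩

lemma propInt_diag' {a : Fin d → ℝ} (ha : ∏ i, a i ≠ 0) {h : Matrix (Fin d) (Fin d) ℝ}
    (hP : H715R2.PropInt h) : H715R2.PropInt (diagonal a * h) := by
  obtain ⟨c, hc, hz⟩ := hP
  refine ⟨c / ∏ i, a i, div_ne_zero hc ha, fun m => ?_⟩
  rw [X87.CSD.polyF_diag, smul_smul, div_mul_cancel₀ _ ha]
  exact hz m

/-- normalisation of the determinant -/
lemma normalise (hd : 0 < d) {g : Matrix (Fin d) (Fin d) ℝ} (hg : g.det ≠ 0) :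
    ∃ c : ℝ, 0 < c ∧ |(c • g).det| = 1 ∧ nu (c • g) = nuBar g ∧
      (H715R2.PropInt (c • g) ↔ H715R2.PropInt g) ∧ ∀ x, F g x = |g.det| * F (c • g) x := by
  have hW : 0 < |g.det| := abs_pos.2 hg
  have hdR : (d : ℝ) ≠ 0 := by exact_mod_cast hd.ne'
  set c : ℝ := |g.det| ^ (-(1 : ℝ) / d) with hc
  have hc0 : 0 < c := Real.rpow_pos_of_pos hW _
  have hcd : c ^ d * |g.det| = 1 := by
    rw [hc, ← Real.rpow_natCast, ← Real.rpow_mul hW.le, div_mul_cancel₀ _ hdR, Real.rpow_neg_one]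
    exact inv_mul_cancel₀ hW.ne'
  have hF : ∀ x, F (c • g) x = c ^ d * F g x := by
    intro x
    unfold F
    have h1 : ∀ i : Fin d, ∑ j, (c • g) i j * x j = c * ∑ j, g i j * x j := by
      intro i
      rw [Finset.mul_sum]
      refine Finset.sum_congr rfl fun j _ => ?_
      rw [Matrix.smul_apply, smul_eq_mul, mul_assoc]
    simp only [h1]
    rw [Finset.prod_mul_distrib, Finset.prod_const, Finset.card_univ, Fintype.card_fin]
  have hcd' : c ^ d = |g.det|⁻¹ := eq_inv_of_mul_eq_one_left hcd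
  have hsm : c • g = diagonal (fun _ => c) * g := by
    rw [← Matrix.smul_one_eq_diagonal, Matrix.smul_mul, Matrix.one_mul]
  have hsm' : g = diagonal (fun _ => c⁻¹) * (c • g) := by
    rw [← Matrix.smul_one_eq_diagonal, Matrix.smul_mul, Matrix.one_mul, smul_smul,
      inv_mul_cancel₀ hc0.ne', one_smul]
  refine ⟨c, hc0, ?_, ?_, ⟨fun hP => ?_, fun hP => ?_⟩, fun x => ?_⟩
  · rw [det_smul, Fintype.card_fin, abs_mul, abs_of_pos (pow_pos hc0 d), hcd]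
  · unfold nuBar nu
    simp only [hF, abs_mul, abs_of_pos (pow_pos hc0 d)]
    rw [← Real.mul_iInf_of_nonneg (pow_pos hc0 d).le, hcd', div_eq_inv_mul]
  · rw [hsm']
    exact propInt_diag' (by
      rw [Finset.prod_const]; exact pow_ne_zero _ (inv_ne_zero hc0.ne')) hP
  · rw [hsm]
    exact propInt_diag' (by rw [Finset.prod_const]; exact pow_ne_zero _ hc0.ne') hP
  · rw [hF, hcd', ← mul_assoc, mul_inv_cancel₀ hW.ne', one_mul]

lemma F_orb {s h : Matrix (Fin d) (Fin d) ℝ} (hh : h ∈ H715R2.Orb s) :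
    ∃ γ : Matrix (Fin d) (Fin d) ℤ, |γ.det| = 1 ∧
      ∀ x : Fin d → ℝ, F h x = F s ((γ.map (Int.cast : ℤ → ℝ)).mulVec x) := by
  obtain ⟨a, γ, ha0, ha, hγ, hhe⟩ := hh
  refine ⟨γ, Int.isUnit_iff_abs_eq.1 hγ, fun x => ?_⟩
  have h1 : F h x = H715R2.FF h x := rfl
  rw [h1, hhe, H715R2.FF_mul, H715R2.FF_diag_mul, ha, one_mul]
  rfl

/-- part 1 -/
lemma part1 (hd : 3 ≤ d) {δ : ℝ} (hδ : 0 < δ)
    (hall : ∀ g : Matrix (Fin d) (Fin d) ℝ, g.det ≠ 0 → δ ≤ nuBar g → PropInt g) :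
    ∃ S : Finset (Matrix (Fin d) (Fin d) ℝ), ∀ g : Matrix (Fin d) (Fin d) ℝ, g.det ≠ 0 →
      δ ≤ nuBar g → ∃ s ∈ S, Equivalent g s := by
  have hd0 : 0 < d := by omega
  obtain ⟨S, hS, hS'⟩ := X87.CSD.finite_classes (d := d) hd one_pos hδ (fun h hh => by
    refine hall h (X87.CSD.det_ne_of_NN one_pos hh) ?_
    rw [nuBar, hh.1, div_one]
    exact H715R2.le_nuInf hd0 hh.2)
  refine ⟨S, fun g hg hδg => ?_⟩
  obtain ⟨c, hc0, hdet, hnu, -, hF⟩ := normalise hd0 hg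
  have hmem : c • g ∈ X87.CSD.NN d 1 δ := by
    refine ⟨hdet, fun m hm => ?_⟩
    have h1 := hasNu_nu hd0 (c • g) m hm
    rw [hnu] at h1
    exact hδg.trans h1
  obtain ⟨s, hs, horb⟩ := hS' _ hmem
  obtain ⟨γ, hγ, hFs⟩ := F_orb horb
  refine ⟨s, hs, γ, |g.det|, hγ, abs_ne_zero.2 hg, fun x => ?_⟩
  rw [hF x, hFs x]

/-- the orbit closure of a form with the largest possible minimum -/
lemma champion (hd : 3 ≤ d) {θ : ℝ} (hθ : 0 < θ)
    (hmax : ∀ g : Matrix (Fin d) (Fin d) ℝ, g.det ≠ 0 → ¬ PropInt g → nuBar g ≤ θ)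
    {g : Matrix (Fin d) (Fin d) ℝ} (hg : g.det ≠ 0) (hint : ¬ PropInt g) (hnu : nuBar g = θ) :
    (∀ h ∈ OrbitClosure g, ¬ PropInt h ∧ nuBar h = θ) ∧
      ∀ S : ℕ → Matrix (Fin d) (Fin d) ℝ, ∃ h ∈ OrbitClosure g, ∀ n, ¬ Equivalent h (S n) := by
  have hd0 : 0 < d := by omega
  have hW : 0 < |g.det| := abs_pos.2 hg
  have hnu0 : 0 < nu g := by
    by_contra hcon
    have h1 : nu g = 0 := le_antisymm (not_lt.1 hcon) (nu_nonneg g)
    rw [nuBar, h1, zero_div] at hnu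
    exact hθ.ne hnu
  have hC : g ∈ X87.CSD.CC d |g.det| (nu g) := ⟨⟨rfl, hasNu_nu hd0 g⟩, hint⟩
  refine ⟨fun h hh => ?_, fun S => ?_⟩
  · rw [closure_eq] at hh
    have h1 := X87.CSD.CC_orb hd hW hnu0 hC hh
    have hdet : |h.det| = |g.det| := h1.1.1
    have hdet0 : h.det ≠ 0 := X87.CSD.det_ne_of_NN hW h1.1
    refine ⟨h1.2, le_antisymm (hmax h hdet0 h1.2) ?_⟩
    rw [← hnu, nuBar, nuBar, hdet]
    exact div_le_div_of_nonneg_right (H715R2.nuInf_le_of_mem_closure hd0 hh) hW.le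
  · obtain ⟨g', hg', -, -, hne⟩ := H715R2.uncountable_family hd hg hnu0 (hasNu_nu hd0 g) hint S
    refine ⟨g', by rw [closure_eq]; exact hg', fun n hE => ?_⟩
    obtain ⟨γ, c, hγ, hc, heq⟩ := hE
    obtain ⟨x, hx⟩ := hne n γ c (Int.isUnit_iff_abs_eq.2 hγ)
    apply hx
    have h1 := heq (H715R2.iR x)
    have h2 : (γ.map (Int.cast : ℤ → ℝ)).mulVec (H715R2.iR x) = H715R2.iR (γ *ᵥ x) :=
      H715R2.zR_mulVec_iR γ x
    rw [h2] at h1
    exact h1

/-- part 2 -/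
lemma part2 (hd : 3 ≤ d)
    (hne : ∃ g : Matrix (Fin d) (Fin d) ℝ, g.det ≠ 0 ∧ ¬ PropInt g ∧ nuBar g ≠ 0) :
    ∃ θ : ℝ, 0 < θ ∧
      (∀ g : Matrix (Fin d) (Fin d) ℝ, g.det ≠ 0 → ¬ PropInt g → nuBar g ≤ θ) ∧
      (∃ g : Matrix (Fin d) (Fin d) ℝ, g.det ≠ 0 ∧ ¬ PropInt g ∧ nuBar g = θ ∧ Recurrent g ∧
        ∃ x : Fin d → ℤ, x ≠ 0 ∧ |F g (fun i => (x i : ℝ))| = nu g) ∧
      ∀ g : Matrix (Fin d) (Fin d) ℝ, g.det ≠ 0 → ¬ PropInt g → nuBar g = θ →
        (∀ h ∈ OrbitClosure g, ¬ PropInt h ∧ nuBar h = θ) ∧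
        ∀ S : ℕ → Matrix (Fin d) (Fin d) ℝ, ∃ h ∈ OrbitClosure g, ∀ n, ¬ Equivalent h (S n) := by
  have hd0 : 0 < d := by omega
  obtain ⟨g₀, hg₀, hint₀, hnu₀⟩ := hne
  have hnu0 : 0 < nuBar g₀ := lt_of_le_of_ne (div_nonneg (nu_nonneg g₀) (abs_nonneg _)) hnu₀.symm
  obtain ⟨c, hc0, hdet, hnu, hPI, -⟩ := normalise hd0 hg₀
  have hmem : c • g₀ ∈ X87.CSD.CC d 1 (nuBar g₀) := by
    refine ⟨⟨hdet, ?_⟩, fun hP => hint₀ (hPI.1 hP)⟩
    have h1 := hasNu_nu hd0 (c • g₀)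
    rwa [hnu] at h1
  obtain ⟨g, hgC, hmax⟩ := X87.CSD.exists_max hd one_pos hnu0 ⟨_, hmem⟩
  have hgdet : g.det ≠ 0 := X87.CSD.det_ne_of_NN one_pos hgC.1
  have hgnu : nuBar g = nu g := by rw [nuBar, hgC.1.1, div_one]
  have hmax' : ∀ h : Matrix (Fin d) (Fin d) ℝ, h.det ≠ 0 → ¬ PropInt h → nuBar h ≤ nuBar g := by
    intro h hh hint
    obtain ⟨c', hc0', hdet', hnu', hPI', -⟩ := normalise hd0 hh
    rw [hgnu, ← hnu']
    exact hmax _ hdet' fun hP => hint (hPI'.1 hP)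
  have hθ : 0 < nuBar g := by
    rw [hgnu]
    exact hnu0.trans_le (H715R2.le_nuInf hd0 hgC.1.2)
  refine ⟨nuBar g, hθ, hmax', ?_, fun g' hg' hint' hnu' => champion hd hθ hmax' hg' hint' hnu'⟩
  obtain ⟨h, hh, hrec, x₀, hx₀, hmin⟩ := TH314.CSD.exists_recurrent_attained hd0
    (hgnu ▸ hθ) hgdet (hasNu_nu hd0 g)
  have h1 := (champion hd hθ hmax' hgdet hgC.2 rfl).1 h (by rw [closure_eq]; exact hh)
  refine ⟨h, ?_, h1.1, h1.2, (recurrent_iff h).2 hrec, x₀, hx₀, ?_⟩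
  · rw [← abs_ne_zero, H715R2.abs_det_closure hh, abs_ne_zero]
    exact hgdet
  · have := H715R2.nonempty_ne hd0
    apply le_antisymm
    · exact le_ciInf fun x => hmin x.1 x.2
    · exact hasNu_nu hd0 h x₀ hx₀

/-- Main theorem. -/
theorem result (d : ℕ) (hd : 3 ≤ d) :
    -- 1. finiteness above the non-integral forms
    (∀ δ : ℝ, 0 < δ →
      (∀ g : Matrix (Fin d) (Fin d) ℝ, g.det ≠ 0 → δ ≤ nuBar g → PropInt g) →
      ∃ S : Finset (Matrix (Fin d) (Fin d) ℝ), ∀ g : Matrix (Fin d) (Fin d) ℝ, g.det ≠ 0 →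
        δ ≤ nuBar g → ∃ s ∈ S, Equivalent g s) ∧
    -- 2. the largest normalised minimum of a non-integral form
    (¬ Conj d → ∃ θ : ℝ, 0 < θ ∧
      (∀ g : Matrix (Fin d) (Fin d) ℝ, g.det ≠ 0 → ¬ PropInt g → nuBar g ≤ θ) ∧
      (∃ g : Matrix (Fin d) (Fin d) ℝ, g.det ≠ 0 ∧ ¬ PropInt g ∧ nuBar g = θ ∧ Recurrent g ∧
        ∃ x : Fin d → ℤ, x ≠ 0 ∧ |F g (fun i => (x i : ℝ))| = nu g) ∧
      ∀ g : Matrix (Fin d) (Fin d) ℝ, g.det ≠ 0 → ¬ PropInt g → nuBar g = θ →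
        (∀ h ∈ OrbitClosure g, ¬ PropInt h ∧ nuBar h = θ) ∧
        ∀ S : ℕ → Matrix (Fin d) (Fin d) ℝ, ∃ h ∈ OrbitClosure g, ∀ n, ¬ Equivalent h (S n)) ∧
    -- 3. the conjecture in terms of the level sets
    (Conj d ↔ ∀ δ : ℝ, 0 < δ → ∃ S : Finset (Matrix (Fin d) (Fin d) ℝ),
      ∀ g : Matrix (Fin d) (Fin d) ℝ, g.det ≠ 0 → nuBar g = δ → ∃ s ∈ S, Equivalent g s) ∧
    (Conj d ↔ ∀ δ : ℝ, 0 < δ → ∃ S : ℕ → Matrix (Fin d) (Fin d) ℝ,
      ∀ g : Matrix (Fin d) (Fin d) ℝ, g.det ≠ 0 → nuBar g = δ → ∃ n, Equivalent g (S n)) := by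
  have p2 : ¬ Conj d → ∃ g : Matrix (Fin d) (Fin d) ℝ, g.det ≠ 0 ∧ ¬ PropInt g ∧ nuBar g ≠ 0 := by
    intro hC
    unfold Conj at hC
    push Not at hC
    exact hC
  have h12 : Conj d → ∀ δ : ℝ, 0 < δ → ∃ S : Finset (Matrix (Fin d) (Fin d) ℝ),
      ∀ g : Matrix (Fin d) (Fin d) ℝ, g.det ≠ 0 → nuBar g = δ → ∃ s ∈ S, Equivalent g s := by
    intro hC δ hδ
    obtain ⟨S, hS⟩ := part1 hd hδ (fun g hg hδg => by
      by_contra hP
      rw [hC g hg hP] at hδg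
      exact absurd hδg (not_le.2 hδ))
    exact ⟨S, fun g hg hgδ => hS g hg hgδ.ge⟩
  have h23 : (∀ δ : ℝ, 0 < δ → ∃ S : Finset (Matrix (Fin d) (Fin d) ℝ),
      ∀ g : Matrix (Fin d) (Fin d) ℝ, g.det ≠ 0 → nuBar g = δ → ∃ s ∈ S, Equivalent g s) →
      ∀ δ : ℝ, 0 < δ → ∃ S : ℕ → Matrix (Fin d) (Fin d) ℝ,
      ∀ g : Matrix (Fin d) (Fin d) ℝ, g.det ≠ 0 → nuBar g = δ → ∃ n, Equivalent g (S n) := by
    intro hS δ hδ
    obtain ⟨S, hS⟩ := hS δ hδ
    refine ⟨fun n => S.toList.getD n 0, fun g hg hgδ => ?_⟩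
    obtain ⟨s, hs, hE⟩ := hS g hg hgδ
    obtain ⟨n, hn, hns⟩ := List.getElem_of_mem (Finset.mem_toList.2 hs)
    refine ⟨n, ?_⟩
    show Equivalent g (S.toList.getD n 0)
    rw [List.getD_eq_getElem _ _ hn, hns]
    exact hE
  have h31 : (∀ δ : ℝ, 0 < δ → ∃ S : ℕ → Matrix (Fin d) (Fin d) ℝ,
      ∀ g : Matrix (Fin d) (Fin d) ℝ, g.det ≠ 0 → nuBar g = δ → ∃ n, Equivalent g (S n)) →
      Conj d := by
    intro hS
    by_contra hC
    obtain ⟨θ, hθ, hmax, ⟨g, hg, hint, hnu, -⟩, hch⟩ := part2 hd (p2 hC)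
    obtain ⟨S, hS⟩ := hS θ hθ
    obtain ⟨h1, h2⟩ := hch g hg hint hnu
    obtain ⟨h, hh, hne⟩ := h2 S
    have hdet : h.det ≠ 0 := by
      rw [closure_eq] at hh
      rw [← abs_ne_zero, H715R2.abs_det_closure hh, abs_ne_zero]
      exact hg
    obtain ⟨n, hn⟩ := hS h hdet (h1 h hh).2
    exact hne n hn
  exact ⟨fun δ hδ hall => part1 hd hδ hall, fun hC => part2 hd (p2 hC),
    ⟨h12, fun h => h31 (h23 h)⟩, ⟨fun h => h23 (h12 h), h31⟩⟩

end Pool.Agent.Results.MP_edeaa2_an.TopOfSpectrum
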