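import Mathlib
import Pool.Agent.X87.CSD.Factor

/-! # MP_edeaa2_an: the conjecture as a uniqueness statement

Let `d ≥ 3`; products of `d` linearly independent real linear forms are given by real invertible
`d × d` matrices, and a product is bounded below if it is bounded away from zero at the nonzero
integer points.

1. If a product which is bounded below has a factor in common with an integral product (one
   proportional to an integral form) which is bounded below, then it is integral itself.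
2. If it has `d - 1` factors in common with it, then the remaining factors are proportional, too.
3. Let `g` be bounded below, let `k` be an index and let `𝒯` be a set of real numbers which contains
   arbitrarily long intervals, for example a half-line. The product of the rows of `g` is integral if
   and only if in the limit set of `g` under the one-parameter group which scales the row `k`
   against all other rows, at the times in `𝒯`, the rows other than row `k` determine row `k` up to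
   a factor.
4. The conjecture of Cassels and Swinnerton-Dyer in dimension `d` is equivalent to: `d - 1` factors
   of a product which is bounded below determine the remaining factor up to a constant.
5. For fixed `i ≠ j` it is equivalent to: `l_1 ⋯ l_d` and the product in which the factor `l_i` is
   replaced by `l_i + l_j` are never both bounded below. -/

set_option autoImplicit false

open Filter Topology Matrix

namespace Pool.Agent.Results.MP_edeaa2_an.LastFactor

variable {d : ℕ}

/-- the product of the linear forms given by the rows of `g`, at an integer point -/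
noncomputable def F (g : Matrix (Fin d) (Fin d) ℝ) (x : Fin d → ℤ) : ℝ :=
  ∏ i : Fin d, ∑ j : Fin d, g i j * (x j : ℝ)

/-- the product of the linear forms is proportional to a form with integer coefficients -/
def PropInt (h : Matrix (Fin d) (Fin d) ℝ) : Prop :=
  ∃ c : ℝ, c ≠ 0 ∧ ∀ m : Fin d →₀ ℕ, ∃ z : ℤ, MvPolynomial.coeff m
    (c • (∏ i : Fin d, ∑ j : Fin d,
      MvPolynomial.C (h i j) * MvPolynomial.X j : MvPolynomial (Fin d) ℝ)) = (z : ℝ)

/-- the form is bounded away from zero at the nonzero integer points -/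
def BoundedBelow (g : Matrix (Fin d) (Fin d) ℝ) : Prop :=
  ∃ ν : ℝ, 0 < ν ∧ ∀ x : Fin d → ℤ, x ≠ 0 → ν ≤ |F g x|

/-- the set contains arbitrarily long intervals -/
def LongIntervals (𝒯 : Set ℝ) : Prop := ∀ n : ℕ, ∃ t : ℝ, Set.Icc (t - n) (t + n) ⊆ 𝒯

/-- the diagonal entries of the one-parameter group of the index `k` -/
noncomputable def ray (k : Fin d) (t : ℝ) : Fin d → ℝ :=
  fun l => if l = k then Real.exp (-(((d : ℝ) - 1) * t)) else Real.exp t

/-- the limit set of `g` modulo `GL_d(ℤ)` under this one-parameter group along the times in `𝒯` -/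
def LimitSet (g : Matrix (Fin d) (Fin d) ℝ) (k : Fin d) (𝒯 : Set ℝ) :
    Set (Matrix (Fin d) (Fin d) ℝ) :=
  ⋂ n : ℕ, closure {h | ∃ (t : ℝ) (γ : Matrix (Fin d) (Fin d) ℤ), Set.Icc (t - n) (t + n) ⊆ 𝒯 ∧
    |γ.det| = 1 ∧ h = Matrix.diagonal (ray k t) * g * γ.map (Int.cast : ℤ → ℝ)}

/-- the conjecture of Cassels and Swinnerton-Dyer in dimension `d` -/
def Conj (d : ℕ) : Prop :=
  ∀ g : Matrix (Fin d) (Fin d) ℝ, g.det ≠ 0 → BoundedBelow g → PropInt g

lemma limitSet_eq (g : Matrix (Fin d) (Fin d) ℝ) (k : Fin d) (𝒯 : Set ℝ) :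
    LimitSet g k 𝒯 = X87.CSD.LimSet g k 𝒯 := by
  unfold LimitSet X87.CSD.LimSet
  congr 1
  funext n
  congr 1
  ext h
  constructor
  · rintro ⟨t, γ, ht, hγ, hh⟩
    exact ⟨t, γ, ht, Int.isUnit_iff_abs_eq.2 hγ, hh⟩
  · rintro ⟨t, γ, ht, hγ, hh⟩
    exact ⟨t, γ, ht, Int.isUnit_iff_abs_eq.1 hγ, hh⟩

/-- Main theorem. -/
theorem result (d : ℕ) (hd : 3 ≤ d) :
    -- 1. one common factor with an integral product
    (∀ g g' : Matrix (Fin d) (Fin d) ℝ, g.det ≠ 0 → g'.det ≠ 0 → BoundedBelow g →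
      BoundedBelow g' → PropInt g → ∀ (i j : Fin d) (s : ℝ), s ≠ 0 → g' j = s • g i →
        PropInt g') ∧
    -- 2. all but one factors in common with an integral product
    (∀ g g' : Matrix (Fin d) (Fin d) ℝ, g.det ≠ 0 → g'.det ≠ 0 → BoundedBelow g →
      BoundedBelow g' → PropInt g → ∀ k : Fin d, (∀ j, j ≠ k → g' j = g j) →
        ∃ c : ℝ, g' k = c • g k) ∧
    -- 3. a criterion for a single product
    (∀ g : Matrix (Fin d) (Fin d) ℝ, g.det ≠ 0 → BoundedBelow g →
      ∀ (k : Fin d) (𝒯 : Set ℝ), LongIntervals 𝒯 →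
        (PropInt g ↔ ∀ h ∈ LimitSet g k 𝒯, ∀ h' ∈ LimitSet g k 𝒯,
          (∀ j, j ≠ k → h' j = h j) → ∃ c : ℝ, h' k = c • h k)) ∧
    -- 4. the conjecture: the last factor is determined by the others
    (Conj d ↔ ∀ g g' : Matrix (Fin d) (Fin d) ℝ, g.det ≠ 0 → g'.det ≠ 0 → BoundedBelow g →
      BoundedBelow g' → ∀ k : Fin d, (∀ j, j ≠ k → g' j = g j) → ∃ c : ℝ, g' k = c • g k) ∧
    -- 5. the conjecture: one factor added to another one
    (∀ i j : Fin d, i ≠ j →
      (Conj d ↔ ∀ g : Matrix (Fin d) (Fin d) ℝ, g.det ≠ 0 → BoundedBelow g →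
        ¬ BoundedBelow (g.updateRow i (g i + g j)))) := by
  have common : ∀ g g' : Matrix (Fin d) (Fin d) ℝ, BoundedBelow g → BoundedBelow g' →
      ∃ ν : ℝ, 0 < ν ∧ H715R2.HasNu g ν ∧ H715R2.HasNu g' ν := by
    rintro g g' ⟨ν, hν, h⟩ ⟨ν', hν', h'⟩
    exact ⟨min ν ν', lt_min hν hν', fun m hm => (min_le_left _ _).trans (h m hm),
      fun m hm => (min_le_right _ _).trans (h' m hm)⟩
  have h1 : ∀ g g' : Matrix (Fin d) (Fin d) ℝ, g.det ≠ 0 → g'.det ≠ 0 → BoundedBelow g →
      BoundedBelow g' → PropInt g → ∀ (i j : Fin d) (s : ℝ), s ≠ 0 → g' j = s • g i →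
        PropInt g' := by
    intro g g' hg hg' hb hb' hP i j s hs hrow
    obtain ⟨ν, hν, hn, hn'⟩ := common g g' hb hb'
    exact X87.CSD.common_factor hd hg hg' hν hn hn' hP hs hrow
  have h2 : ∀ g g' : Matrix (Fin d) (Fin d) ℝ, g.det ≠ 0 → g'.det ≠ 0 → BoundedBelow g →
      BoundedBelow g' → PropInt g → ∀ k : Fin d, (∀ j, j ≠ k → g' j = g j) →
        ∃ c : ℝ, g' k = c • g k := by
    intro g g' hg hg' hb hb' hP k hrows
    obtain ⟨ν, hν, hn, hn'⟩ := common g g' hb hb'
    exact X87.CSD.last_factor hd hg hg' hν hn hn' hP hrows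
  have h4 : Conj d → ∀ g g' : Matrix (Fin d) (Fin d) ℝ, g.det ≠ 0 → g'.det ≠ 0 →
      BoundedBelow g → BoundedBelow g' → ∀ k : Fin d, (∀ j, j ≠ k → g' j = g j) →
        ∃ c : ℝ, g' k = c • g k :=
    fun hC g g' hg hg' hb hb' k hrows => h2 g g' hg hg' hb hb' (hC g hg hb) k hrows
  have h3 : ∀ g : Matrix (Fin d) (Fin d) ℝ, g.det ≠ 0 → BoundedBelow g →
      ∀ (k : Fin d) (𝒯 : Set ℝ), LongIntervals 𝒯 →
        (PropInt g ↔ ∀ h ∈ LimitSet g k 𝒯, ∀ h' ∈ LimitSet g k 𝒯,
          (∀ j, j ≠ k → h' j = h j) → ∃ c : ℝ, h' k = c • h k) := by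
    rintro g hg ⟨ν, hν, hnu⟩ k 𝒯 h𝒯
    rw [limitSet_eq]
    constructor
    · intro hP h hh h' hh' hrows
      have hs := X87.CSD.LimSet_sub g k 𝒯
      have hdet : ∀ h ∈ X87.CSD.LimSet g k 𝒯, h.det ≠ 0 := fun h hh => by
        rw [← abs_ne_zero, H715R2.abs_det_closure (hs hh), abs_ne_zero]; exact hg
      exact X87.CSD.last_factor hd (hdet h hh) (hdet h' hh') hν
        (H715R2.hasNu_closure hnu (hs hh)) (H715R2.hasNu_closure hnu (hs hh'))
        (Y327.propInt_closure hd hg hν hnu hP (hs hh)) hrows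
    · intro hall
      by_contra hint
      obtain ⟨h, hh, h', hh', hrows, hne⟩ := X87.CSD.line_pair hd hg hν hnu hint k h𝒯
      obtain ⟨c, hc⟩ := hall h hh h' hh' hrows
      exact hne c hc
  have key : ∀ i j : Fin d, i ≠ j →
      (∀ g : Matrix (Fin d) (Fin d) ℝ, g.det ≠ 0 → BoundedBelow g →
        ¬ BoundedBelow (g.updateRow i (g i + g j))) → Conj d := by
    intro i j hij hall g hg hb
    obtain ⟨ν, hν, hnu⟩ := hb
    by_contra hint
    obtain ⟨g₁, ν₁, hg₁, hν₁, hn1, hn2⟩ := X87.CSD.add_pair hd hg hν hnu hint hij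
    exact hall g₁ hg₁ ⟨ν₁, hν₁, hn1⟩ ⟨ν₁, hν₁, hn2⟩
  have indep : ∀ (g : Matrix (Fin d) (Fin d) ℝ) (i j : Fin d), i ≠ j → g.det ≠ 0 → ∀ c : ℝ,
      g i + g j ≠ c • g i := by
    intro g i j hij hg c hc
    have hu : IsUnit g.det := isUnit_iff_ne_zero.2 hg
    have e1 : ((Pi.single i 1 : Fin d → ℝ) + Pi.single j 1) ᵥ* g =
        (c • (Pi.single i 1 : Fin d → ℝ)) ᵥ* g := by
      rw [Matrix.add_vecMul, Matrix.single_one_vecMul, Matrix.single_one_vecMul,
        Matrix.smul_vecMul, Matrix.single_one_vecMul]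
      exact hc
    have e2 := congrArg (fun v => v ᵥ* g⁻¹) e1
    simp only [Matrix.vecMul_vecMul, Matrix.mul_nonsing_inv _ hu, Matrix.vecMul_one] at e2
    have e3 := congrFun e2 j
    rw [Pi.add_apply, Pi.smul_apply, smul_eq_mul, Pi.single_eq_same,
      Pi.single_eq_of_ne hij.symm] at e3
    norm_num at e3
  have h5 : ∀ i j : Fin d, i ≠ j →
      (Conj d ↔ ∀ g : Matrix (Fin d) (Fin d) ℝ, g.det ≠ 0 → BoundedBelow g →
        ¬ BoundedBelow (g.updateRow i (g i + g j))) := by
    intro i j hij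
    refine ⟨fun hC g hg hb hb' => ?_, key i j hij⟩
    have hdet : (g.updateRow i (g i + g j)).det ≠ 0 := by
      rw [Matrix.det_updateRow_add_self g hij]
      exact hg
    obtain ⟨c, hc⟩ := h4 hC g _ hg hdet hb hb' i (fun l hl => Matrix.updateRow_ne hl)
    rw [Matrix.updateRow_self] at hc
    exact indep g i j hij hg c hc
  refine ⟨h1, h2, h3, ⟨h4, fun hall => ?_⟩, h5⟩
  have hij : (⟨0, by omega⟩ : Fin d) ≠ ⟨1, by omega⟩ := by
    intro h
    have := congrArg Fin.val h
    norm_num at this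
  refine key _ _ hij fun g hg hb hb' => ?_
  have hdet : (g.updateRow (⟨0, by omega⟩ : Fin d) (g ⟨0, by omega⟩ + g ⟨1, by omega⟩)).det ≠ 0 := by
    rw [Matrix.det_updateRow_add_self g hij]
    exact hg
  obtain ⟨c, hc⟩ := hall g _ hg hdet hb hb' _ (fun l hl => Matrix.updateRow_ne hl)
  rw [Matrix.updateRow_self] at hc
  exact indep g _ _ hij hg c hc

end Pool.Agent.Results.MP_edeaa2_an.LastFactor
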