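import Mathlib
import Pool.Agent.X87.CSD.Ratios

/-! # MP_edeaa2_an: local ratios of a single linear factor

Let `d ≥ 3` and let `g` be a real invertible `d × d` matrix such that the product of its rows is
bounded away from zero at the nonzero integer points. For an index `i` and `T, R > 0` consider the
ratios `|l_i(x)| / |l_i(y)|` of the values of the single factor `l_i` at nonzero integer points
`x, y` with `|F(x)| < T`, `|F(y)| < T` at which all factors `l_k` agree in absolute value up to the
factor `R`. (These are the exponentials of the `i`-th coordinates of the bounded differences of the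
types `(log |l_1(x)|, …, log |l_d(x)|)` of the points with small value.)

1. For all `V, ν > 0` there are `T, R > 0` such that for all `g` with `|det g| = V` whose form is
   bounded below by `ν`, and for each single index `i`: the form is proportional to an integral form
   if and only if this set of ratios is finite, and if and only if it has countable closure.
2. If the form is bounded below and proportional to an integral form, then the sets of ratios are
   finite for all `i, T, R`.
3. The conjecture of Cassels and Swinnerton-Dyer in dimension `d` is equivalent to: for every form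
   bounded below there is an index `i` such that for all `T, R` the set of ratios has countable
   closure.

So the pattern of types of a counterexample has infinite local complexity in every coordinate. -/

set_option autoImplicit false

open Filter Topology Matrix

namespace Pool.Agent.Results.MP_edeaa2_an.LocalRatios

variable {d : ℕ}

/-- the value at the integer point `x` of the linear form given by row `i` of `g` -/
noncomputable def l (g : Matrix (Fin d) (Fin d) ℝ) (i : Fin d) (x : Fin d → ℤ) : ℝ :=
  ∑ j : Fin d, g i j * (x j : ℝ)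

/-- the product of the linear forms given by the rows of `g`, at an integer point -/
noncomputable def F (g : Matrix (Fin d) (Fin d) ℝ) (x : Fin d → ℤ) : ℝ := ∏ i : Fin d, l g i x

/-- the product of the linear forms is proportional to a form with integer coefficients -/
def PropInt (h : Matrix (Fin d) (Fin d) ℝ) : Prop :=
  ∃ c : ℝ, c ≠ 0 ∧ ∀ m : Fin d →₀ ℕ, ∃ z : ℤ, MvPolynomial.coeff m
    (c • (∏ i : Fin d, ∑ j : Fin d,
      MvPolynomial.C (h i j) * MvPolynomial.X j : MvPolynomial (Fin d) ℝ)) = (z : ℝ)

/-- the form is bounded away from zero at the nonzero integer points -/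
def BoundedBelow (g : Matrix (Fin d) (Fin d) ℝ) : Prop :=
  ∃ ν : ℝ, 0 < ν ∧ ∀ x : Fin d → ℤ, x ≠ 0 → ν ≤ |F g x|

/-- The ratios `|l_i(x)| / |l_i(y)|` over the nonzero integer points `x, y` with `|F(x)|, |F(y)| < T`
at which all factors agree in absolute value up to the factor `R`. -/
def Ratios (g : Matrix (Fin d) (Fin d) ℝ) (i : Fin d) (T R : ℝ) : Set ℝ :=
  {t | ∃ x y : Fin d → ℤ, x ≠ 0 ∧ y ≠ 0 ∧ |F g x| < T ∧ |F g y| < T ∧
    (∀ k, |l g k x| < R * |l g k y| ∧ |l g k y| < R * |l g k x|) ∧
    |l g i x| / |l g i y| = t}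

/-- the conjecture of Cassels and Swinnerton-Dyer in dimension `d` -/
def Conj (d : ℕ) : Prop :=
  ∀ g : Matrix (Fin d) (Fin d) ℝ, g.det ≠ 0 → BoundedBelow g → PropInt g

lemma ratios_eq (g : Matrix (Fin d) (Fin d) ℝ) (i : Fin d) (T R : ℝ) :
    Ratios g i T R = X87.CSD.Ratios g i T R := rfl

/-- Main theorem. -/
theorem result (d : ℕ) (hd : 3 ≤ d) :
    -- 1. a criterion with uniform constants
    (∀ V ν : ℝ, 0 < V → 0 < ν → ∃ T R : ℝ, 0 < T ∧ 0 < R ∧
      ∀ g : Matrix (Fin d) (Fin d) ℝ, |g.det| = V → (∀ x : Fin d → ℤ, x ≠ 0 → ν ≤ |F g x|) →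
        ∀ i : Fin d, (PropInt g ↔ (Ratios g i T R).Finite) ∧
          (PropInt g ↔ (closure (Ratios g i T R)).Countable)) ∧
    -- 2. integral forms
    (∀ g : Matrix (Fin d) (Fin d) ℝ, g.det ≠ 0 → BoundedBelow g → PropInt g →
      ∀ (i : Fin d) (T R : ℝ), (Ratios g i T R).Finite) ∧
    -- 3. the conjecture
    (Conj d ↔ ∀ g : Matrix (Fin d) (Fin d) ℝ, g.det ≠ 0 → BoundedBelow g →
      ∃ i : Fin d, ∀ T R : ℝ, (closure (Ratios g i T R)).Countable) := by
  have h1 : ∀ V ν : ℝ, 0 < V → 0 < ν → ∃ T R : ℝ, 0 < T ∧ 0 < R ∧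
      ∀ g : Matrix (Fin d) (Fin d) ℝ, |g.det| = V → (∀ x : Fin d → ℤ, x ≠ 0 → ν ≤ |F g x|) →
        ∀ i : Fin d, (PropInt g ↔ (Ratios g i T R).Finite) ∧
          (PropInt g ↔ (closure (Ratios g i T R)).Countable) := by
    intro V ν hV hν
    obtain ⟨T, R, hT, hR, hTR⟩ := X87.CSD.countable_ratios (d := d) hd hV hν
    refine ⟨T, R, hT, hR, fun g hgV hnu i => ?_⟩
    have hg : g.det ≠ 0 := by
      intro h0
      rw [h0, abs_zero] at hgV
      exact hV.ne hgV
    have a1 : PropInt g → (Ratios g i T R).Finite := fun hP =>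
      X87.CSD.finite_ratios hd hg hν hnu hP i T R
    have a2 : (Ratios g i T R).Finite → (closure (Ratios g i T R)).Countable := fun hf => by
      rw [hf.isClosed.closure_eq]
      exact hf.countable
    have a3 : (closure (Ratios g i T R)).Countable → PropInt g := fun hc =>
      hTR g hgV hnu i hc
    exact ⟨⟨a1, fun h => a3 (a2 h)⟩, ⟨fun h => a2 (a1 h), a3⟩⟩
  have h2 : ∀ g : Matrix (Fin d) (Fin d) ℝ, g.det ≠ 0 → BoundedBelow g → PropInt g →
      ∀ (i : Fin d) (T R : ℝ), (Ratios g i T R).Finite := by
    rintro g hg ⟨ν, hν, hnu⟩ hP i T R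
    exact X87.CSD.finite_ratios hd hg hν hnu hP i T R
  refine ⟨h1, h2, ⟨fun hC g hg hb => ⟨⟨0, by omega⟩, fun T R => ?_⟩, fun hR g hg hb => ?_⟩⟩
  · have hf := h2 g hg hb (hC g hg hb) ⟨0, by omega⟩ T R
    rw [hf.isClosed.closure_eq]
    exact hf.countable
  · obtain ⟨i, hi⟩ := hR g hg hb
    obtain ⟨ν, hν, hnu⟩ := hb
    obtain ⟨T, R, -, -, hTR⟩ := h1 |g.det| ν (abs_pos.2 hg) hν
    exact (hTR g rfl hnu i).2.2 (hi T R)

end Pool.Agent.Results.MP_edeaa2_an.LocalRatios
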