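import Mathlib
import Pool.Agent.X87.CSD.Line

/-! # MP_edeaa2_an: the values at the good approximations to a single line

Let `d ≥ 3` and let `g` be a real invertible `d × d` matrix such that the product `F` of its rows
`l_1, …, l_d` is bounded away from zero at the nonzero integer points. Fix one index `k` and a set
`𝒯` of real numbers which contains arbitrarily long intervals, for example `[t₀, ∞)` or
`(-∞, -t₀]`. Consider only the integer points `x` for which there is `t ∈ 𝒯` with
`|l_k(x)| < R exp((d - 1) t)` and `|l_j(x)| < R exp(-t)` for all `j ≠ k`. For `𝒯 = [t₀, ∞)` these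
are the points near the line on which all factors except `l_k` vanish (good simultaneous
approximations to one direction), for `𝒯 = (-∞, -t₀]` the points near the hyperplane `l_k = 0`.

1. `F` is proportional to an integral form if and only if, for all `R`, it takes finitely many values
   at these points, and if and only if, for all `R`, these values have countable closure.
2. The conjecture of Cassels and Swinnerton-Dyer in dimension `d` is equivalent to: for every form
   bounded below there are such `k` and `𝒯` for which these values have countable closure for all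
   `R`. -/

set_option autoImplicit false

open Filter Topology Matrix

namespace Pool.Agent.Results.MP_edeaa2_an.ValuesNearALine

variable {d : ℕ}

/-- the value at the integer point `x` of the linear form given by row `i` of `g` -/
noncomputable def l (g : Matrix (Fin d) (Fin d) ℝ) (i : Fin d) (x : Fin d → ℤ) : ℝ :=
  ∑ j : Fin d, g i j * (x j : ℝ)

/-- the product of the linear forms given by the rows of `g`, at an integer point -/
noncomputable def F (g : Matrix (Fin d) (Fin d) ℝ) (x : Fin d → ℤ) : ℝ := ∏ i : Fin d, l g i x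

/-- the product of the linear forms is proportional to a form with integer coefficients -/
def PropInt (h : Matrix (Fin d) (Fin d) ℝ) : Prop :=
  ∃ c : ℝ, c ≠ 0 ∧ ∀ m : Fin d →₀ ℕ, ∃ z : ℤ, MvPolynomial.coeff m
    (c • (∏ i : Fin d, ∑ j : Fin d,
      MvPolynomial.C (h i j) * MvPolynomial.X j : MvPolynomial (Fin d) ℝ)) = (z : ℝ)

/-- the form is bounded away from zero at the nonzero integer points -/
def BoundedBelow (g : Matrix (Fin d) (Fin d) ℝ) : Prop :=
  ∃ ν : ℝ, 0 < ν ∧ ∀ x : Fin d → ℤ, x ≠ 0 → ν ≤ |F g x|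

/-- the set contains arbitrarily long intervals -/
def LongIntervals (𝒯 : Set ℝ) : Prop := ∀ n : ℕ, ∃ t : ℝ, Set.Icc (t - n) (t + n) ⊆ 𝒯

/-- the values of `F` at the integer points `x` with `|l_k(x)| < R exp((d - 1) t)` and
`|l_j(x)| < R exp(-t)` for all `j ≠ k`, for some `t ∈ 𝒯` -/
def LineValues (g : Matrix (Fin d) (Fin d) ℝ) (k : Fin d) (𝒯 : Set ℝ) (R : ℝ) : Set ℝ :=
  {v | ∃ x : Fin d → ℤ, (∃ t ∈ 𝒯, |l g k x| < R * Real.exp (((d : ℝ) - 1) * t) ∧
    ∀ j, j ≠ k → |l g j x| < R * Real.exp (-t)) ∧ F g x = v}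

/-- the conjecture of Cassels and Swinnerton-Dyer in dimension `d` -/
def Conj (d : ℕ) : Prop :=
  ∀ g : Matrix (Fin d) (Fin d) ℝ, g.det ≠ 0 → BoundedBelow g → PropInt g

lemma lineValues_eq (g : Matrix (Fin d) (Fin d) ℝ) (k : Fin d) (𝒯 : Set ℝ) (R : ℝ) :
    LineValues g k 𝒯 R = X87.CSD.LineValues g k 𝒯 R := by
  have key : ∀ (s y R : ℝ), Real.exp s * y < R ↔ y < R * Real.exp (-s) := by
    intro s y R
    rw [Real.exp_neg, ← div_eq_mul_inv, lt_div_iff₀ (Real.exp_pos s), mul_comm]
  ext v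
  constructor
  · rintro ⟨x, ⟨t, ht, h1, h2⟩, hv⟩
    refine ⟨x, ⟨t, ht, fun j => ?_⟩, hv⟩
    by_cases hj : j = k
    · subst hj
      rw [X87.CSD.at1, if_pos rfl, key, neg_neg]
      exact h1
    · rw [X87.CSD.at1, if_neg hj, key]
      exact h2 j hj
  · rintro ⟨x, ⟨t, ht, h⟩, hv⟩
    refine ⟨x, ⟨t, ht, ?_, fun j hj => ?_⟩, hv⟩
    · have h1 := h k
      rw [X87.CSD.at1, if_pos rfl, key, neg_neg] at h1
      exact h1
    · have h1 := h j
      rw [X87.CSD.at1, if_neg hj, key] at h1
      exact h1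

/-- Main theorem. -/
theorem result (d : ℕ) (hd : 3 ≤ d) :
    -- 1. a criterion for a single form
    (∀ g : Matrix (Fin d) (Fin d) ℝ, g.det ≠ 0 → BoundedBelow g →
      ∀ (k : Fin d) (𝒯 : Set ℝ), LongIntervals 𝒯 →
        (PropInt g ↔ ∀ R : ℝ, (LineValues g k 𝒯 R).Finite) ∧
        (PropInt g ↔ ∀ R : ℝ, (closure (LineValues g k 𝒯 R)).Countable)) ∧
    -- 2. the conjecture
    (Conj d ↔ ∀ g : Matrix (Fin d) (Fin d) ℝ, g.det ≠ 0 → BoundedBelow g →
      ∃ (k : Fin d) (𝒯 : Set ℝ), LongIntervals 𝒯 ∧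
        ∀ R : ℝ, (closure (LineValues g k 𝒯 R)).Countable) := by
  have h1 : ∀ g : Matrix (Fin d) (Fin d) ℝ, g.det ≠ 0 → BoundedBelow g →
      ∀ (k : Fin d) (𝒯 : Set ℝ), LongIntervals 𝒯 →
        (PropInt g ↔ ∀ R : ℝ, (LineValues g k 𝒯 R).Finite) ∧
        (PropInt g ↔ ∀ R : ℝ, (closure (LineValues g k 𝒯 R)).Countable) := by
    rintro g hg ⟨ν, hν, hnu⟩ k 𝒯 h𝒯
    have a1 : PropInt g → ∀ R : ℝ, (LineValues g k 𝒯 R).Finite := fun hP R => by
      rw [lineValues_eq]
      exact X87.CSD.finite_lineValues hP k 𝒯 R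
    have a2 : (∀ R : ℝ, (LineValues g k 𝒯 R).Finite) →
        ∀ R : ℝ, (closure (LineValues g k 𝒯 R)).Countable := fun hf R => by
      rw [(hf R).isClosed.closure_eq]
      exact (hf R).countable
    have a3 : (∀ R : ℝ, (closure (LineValues g k 𝒯 R)).Countable) → PropInt g := fun hc => by
      refine X87.CSD.line_values hd hg hν hnu k h𝒯 fun R => ?_
      rw [← lineValues_eq]
      exact hc R
    exact ⟨⟨a1, fun h => a3 (a2 h)⟩, ⟨fun h => a2 (a1 h), a3⟩⟩
  refine ⟨h1, ⟨fun hC g hg hb => ?_, fun hR g hg hb => ?_⟩⟩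
  · have h𝒯 : LongIntervals (Set.univ : Set ℝ) := fun n => ⟨0, Set.subset_univ _⟩
    exact ⟨⟨0, by omega⟩, Set.univ, h𝒯, (h1 g hg hb _ _ h𝒯).2.1 (hC g hg hb)⟩
  · obtain ⟨k, 𝒯, h𝒯, hc⟩ := hR g hg hb
    exact (h1 g hg hb k 𝒯 h𝒯).2.2 hc

end Pool.Agent.Results.MP_edeaa2_an.ValuesNearALine
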